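import Pool.Agent.TH317.CC.Arr

set_option autoImplicit false

/-!
# Properties of the angle kernel
-/

universe u v w

namespace Pool.Agent.TH317.CC

open Filter Topology MeasureTheory

namespace H902

theorem kap_zero (ψ : ℝ → ℝ) (A B : ℝ × ℝ) (h : det2 A B = 0) : kap ψ A B = 0 := by
  unfold kap
  simp [h]

/-- the integrand -/
noncomputable def ig (ψ : ℝ → ℝ) (A B : ℝ × ℝ) (z : ℝ × ℝ) : ℝ :=
  ψ (z.1 * A.1 - z.2 * B.1) * ψ (z.1 * A.2 - z.2 * B.2) * det2 A B

theorem ig_cont {ψ : ℝ → ℝ} (hψ : Continuous ψ) (A B : ℝ × ℝ) : Continuous (ig ψ A B) := by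
  unfold ig
  fun_prop

theorem ig_supp {ψ : ℝ → ℝ} (hsupp : ∀ x, 1 ≤ |x| → ψ x = 0) (A B : ℝ × ℝ) (h : det2 A B ≠ 0) :
    HasCompactSupport (ig ψ A B) := by
  refine HasCompactSupport.intro (K := Metric.closedBall (0 : ℝ × ℝ)
    ((|A.1| + |A.2| + |B.1| + |B.2|) / |det2 A B|)) (isCompact_closedBall _ _) ?_
  intro z hz
  by_contra hne
  apply hz
  have hd : 0 < |det2 A B| := abs_pos.mpr h
  have h1 : |z.1 * A.1 - z.2 * B.1| < 1 := by
    by_contra hc
    apply hne
    unfold ig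
    rw [hsupp _ (not_lt.mp hc)]
    ring
  have h2 : |z.1 * A.2 - z.2 * B.2| < 1 := by
    by_contra hc
    apply hne
    unfold ig
    rw [hsupp _ (not_lt.mp hc)]
    ring
  have e1 : z.1 * det2 A B = (z.1 * A.1 - z.2 * B.1) * B.2 - (z.1 * A.2 - z.2 * B.2) * B.1 := by
    unfold det2; ring
  have e2 : z.2 * det2 A B = (z.1 * A.1 - z.2 * B.1) * A.2 - (z.1 * A.2 - z.2 * B.2) * A.1 := by
    unfold det2; ring
  have b : ∀ x y p q : ℝ, |x| < 1 → |y| < 1 → |x * p - y * q| ≤ |p| + |q| := by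
    intro x y p q hx hy
    have h3 : |x * p - y * q| ≤ |x * p| + |y * q| := abs_sub _ _
    rw [abs_mul, abs_mul] at h3
    have h4 : |x| * |p| ≤ 1 * |p| := mul_le_mul_of_nonneg_right hx.le (abs_nonneg _)
    have h5 : |y| * |q| ≤ 1 * |q| := mul_le_mul_of_nonneg_right hy.le (abs_nonneg _)
    linarith
  have g1 : |z.1| ≤ (|A.1| + |A.2| + |B.1| + |B.2|) / |det2 A B| := by
    rw [le_div_iff₀ hd, ← abs_mul, e1]
    have := b _ _ B.2 B.1 h1 h2
    have a1 := abs_nonneg A.1
    have a2 := abs_nonneg A.2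
    linarith
  have g2 : |z.2| ≤ (|A.1| + |A.2| + |B.1| + |B.2|) / |det2 A B| := by
    rw [le_div_iff₀ hd, ← abs_mul, e2]
    have := b _ _ A.2 A.1 h1 h2
    have a1 := abs_nonneg B.1
    have a2 := abs_nonneg B.2
    linarith
  rw [mem_closedBall_zero_iff, Prod.norm_def]
  exact max_le g1 g2

theorem ig_int {ψ : ℝ → ℝ} (hψ : Continuous ψ) (hsupp : ∀ x, 1 ≤ |x| → ψ x = 0) (A B : ℝ × ℝ)
    (h : det2 A B ≠ 0) : Integrable (ig ψ A B) ((volume : Measure ℝ).prod (volume : Measure ℝ)) :=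
  (ig_cont hψ A B).integrable_of_hasCompactSupport (ig_supp hsupp A B h)

/-- the linear map of the change of variables -/
noncomputable def Lm (A B : ℝ × ℝ) : ℝ × ℝ →ₗ[ℝ] ℝ × ℝ :=
  LinearMap.prod (A.1 • LinearMap.fst ℝ ℝ ℝ - B.1 • LinearMap.snd ℝ ℝ ℝ)
    (A.2 • LinearMap.fst ℝ ℝ ℝ - B.2 • LinearMap.snd ℝ ℝ ℝ)

theorem Lm_apply (A B z : ℝ × ℝ) : Lm A B z = (z.1 * A.1 - z.2 * B.1, z.1 * A.2 - z.2 * B.2) := by
  refine Prod.ext ?_ ?_
  · show A.1 * z.1 - B.1 * z.2 = z.1 * A.1 - z.2 * B.1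
    ring
  · show A.2 * z.1 - B.2 * z.2 = z.1 * A.2 - z.2 * B.2
    ring

theorem Lm_det (A B : ℝ × ℝ) : LinearMap.det (Lm A B) = - det2 A B := by
  rw [← LinearMap.det_toMatrix (Module.Basis.finTwoProd ℝ), Matrix.det_fin_two]
  simp only [LinearMap.toMatrix_apply, Module.Basis.finTwoProd_zero, Module.Basis.finTwoProd_one,
    Lm_apply, Module.Basis.coe_finTwoProd_repr]
  unfold det2
  simp
  ring

theorem plane {ψ : ℝ → ℝ} (hψ : Continuous ψ) (hint : ∫ x, ψ x = 1) (A B : ℝ × ℝ) (h : 0 < det2 A B) :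
    ∫ z, ig ψ A B z ∂((volume : Measure ℝ).prod (volume : Measure ℝ)) = 1 := by
  have hdet : LinearMap.det (Lm A B) ≠ 0 := by
    rw [Lm_det]
    exact neg_ne_zero.mpr h.ne'
  have h1 := MeasureTheory.Measure.map_linearMap_addHaar_eq_smul_addHaar
    (μ := (volume : Measure ℝ).prod (volume : Measure ℝ)) hdet
  have hg : Continuous (fun z : ℝ × ℝ => ψ z.1 * ψ z.2) := by fun_prop
  have hL : Continuous (Lm A B) := (Lm A B).continuous_of_finiteDimensional
  have h2 : ∫ z, ψ (Lm A B z).1 * ψ (Lm A B z).2 ∂((volume : Measure ℝ).prod (volume : Measure ℝ)) =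
      ∫ z, ψ z.1 * ψ z.2 ∂(Measure.map (Lm A B) ((volume : Measure ℝ).prod (volume : Measure ℝ))) := by
    rw [integral_map hL.aemeasurable hg.aestronglyMeasurable]
  rw [h1, integral_smul_measure, integral_prod_mul, hint, Lm_det] at h2
  have h3 : ∫ z, ig ψ A B z ∂((volume : Measure ℝ).prod (volume : Measure ℝ)) =
      (∫ z, ψ (Lm A B z).1 * ψ (Lm A B z).2 ∂((volume : Measure ℝ).prod (volume : Measure ℝ))) *
        det2 A B := by
    rw [← integral_mul_const]
    refine integral_congr_ae (Eventually.of_forall (fun z => ?_))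
    simp only [Lm_apply]
    rfl
  rw [h3, h2, ENNReal.toReal_ofReal (abs_nonneg _), inv_neg, abs_neg, abs_of_pos (inv_pos.mpr h)]
  simp only [mul_one, smul_eq_mul]
  exact inv_mul_cancel₀ h.ne'

end H902

open H902

theorem kap_smul (ψ : ℝ → ℝ) (hψ : Continuous ψ) (hsupp : ∀ x, 1 ≤ |x| → ψ x = 0)
    (A B : ℝ × ℝ) (μ ν : ℝ) (hμ : 0 < μ) (hν : 0 < ν) :
    kap ψ (μ • A) (ν • B) = kap ψ A B := by
  unfold kap
  have e1 : ∀ s : ℝ, ∫ t in Set.Ioi (0 : ℝ), ψ (s * (μ • A).1 - t * (ν • B).1) *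
      ψ (s * (μ • A).2 - t * (ν • B).2) * det2 (μ • A) (ν • B) =
      μ * ∫ t in Set.Ioi (0 : ℝ), ψ (μ * s * A.1 - t * B.1) * ψ (μ * s * A.2 - t * B.2) * det2 A B := by
    intro s
    have h1 := MeasureTheory.integral_comp_mul_left_Ioi
      (fun t => ψ (μ * s * A.1 - t * B.1) * ψ (μ * s * A.2 - t * B.2) * det2 A B) 0 hν
    rw [mul_zero] at h1
    have h2 : ∫ t in Set.Ioi (0 : ℝ), ψ (s * (μ • A).1 - t * (ν • B).1) *
      ψ (s * (μ • A).2 - t * (ν • B).2) * det2 (μ • A) (ν • B) =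
      ∫ t in Set.Ioi (0 : ℝ), μ * ν * (ψ (μ * s * A.1 - ν * t * B.1) *
        ψ (μ * s * A.2 - ν * t * B.2) * det2 A B) := by
      refine integral_congr_ae (Eventually.of_forall (fun t => ?_))
      simp only [Prod.smul_fst, Prod.smul_snd, smul_eq_mul, det2]
      have a1 : s * (μ * A.1) - t * (ν * B.1) = μ * s * A.1 - ν * t * B.1 := by ring
      have a2 : s * (μ * A.2) - t * (ν * B.2) = μ * s * A.2 - ν * t * B.2 := by ring
      rw [a1, a2]
      ring
    rw [h2, integral_const_mul, h1, smul_eq_mul, ← mul_assoc, mul_assoc μ, mul_inv_cancel₀ hν.ne', mul_one]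
  simp only [e1]
  rw [integral_const_mul]
  have h3 := MeasureTheory.integral_comp_mul_left_Ioi
    (fun s => ∫ t in Set.Ioi (0 : ℝ), ψ (s * A.1 - t * B.1) * ψ (s * A.2 - t * B.2) * det2 A B) 0 hμ
  rw [mul_zero] at h3
  rw [h3, smul_eq_mul, ← mul_assoc, mul_inv_cancel₀ hμ.ne', one_mul]

theorem kap_neg (ψ : ℝ → ℝ) (heven : ∀ x, ψ (-x) = ψ x) (A B : ℝ × ℝ) :
    kap ψ (-A) (-B) = kap ψ A B := by
  unfold kap
  refine integral_congr_ae (Eventually.of_forall (fun s => ?_))
  refine integral_congr_ae (Eventually.of_forall (fun t => ?_))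
  simp only [Prod.fst_neg, Prod.snd_neg, det2]
  have a1 : s * -A.1 - t * -B.1 = -(s * A.1 - t * B.1) := by ring
  have a2 : s * -A.2 - t * -B.2 = -(s * A.2 - t * B.2) := by ring
  rw [a1, a2, heven, heven]
  ring

theorem kap_antisymm (ψ : ℝ → ℝ) (hψ : Continuous ψ) (hsupp : ∀ x, 1 ≤ |x| → ψ x = 0)
    (heven : ∀ x, ψ (-x) = ψ x) (A B : ℝ × ℝ) : kap ψ B A = - kap ψ A B := by
  have hd : det2 B A = - det2 A B := by unfold det2; ring
  by_cases h : det2 A B = 0
  · rw [kap_zero ψ A B h, kap_zero ψ B A (by rw [hd, h, neg_zero]), neg_zero]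
  · have hi := (ig_int hψ hsupp A B h)
    have hi2 : Integrable (Function.uncurry (fun s t => ig ψ A B (s, t)))
        (((volume : Measure ℝ).restrict (Set.Ioi 0)).prod ((volume : Measure ℝ).restrict (Set.Ioi 0))) := by
      rw [Measure.prod_restrict]
      exact hi.integrableOn
    have h1 : kap ψ A B = ∫ t in Set.Ioi (0 : ℝ), ∫ s in Set.Ioi (0 : ℝ), ig ψ A B (s, t) := by
      rw [← integral_integral_swap hi2]
      rfl
    rw [h1]
    unfold kap
    rw [← integral_neg]
    refine integral_congr_ae (Eventually.of_forall (fun s => ?_))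
    simp only
    rw [← integral_neg]
    refine integral_congr_ae (Eventually.of_forall (fun t => ?_))
    simp only [ig]
    have a1 : s * B.1 - t * A.1 = -(t * A.1 - s * B.1) := by ring
    have a2 : s * B.2 - t * A.2 = -(t * A.2 - s * B.2) := by ring
    rw [a1, a2, heven, heven, hd]
    ring

theorem kap_opp (ψ : ℝ → ℝ) (A : ℝ × ℝ) (μ : ℝ) : kap ψ A (μ • A) = 0 := by
  apply kap_zero
  simp only [det2, Prod.smul_fst, Prod.smul_snd, smul_eq_mul]
  ring

theorem kap_sum (ψ : ℝ → ℝ) (hψ : Continuous ψ) (hsupp : ∀ x, 1 ≤ |x| → ψ x = 0)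
    (heven : ∀ x, ψ (-x) = ψ x) (hint : ∫ x, ψ x = 1) (A B : ℝ × ℝ) (h : 0 < det2 A B) :
    kap ψ A B + kap ψ B (-A) = 1 / 2 := by
  have hi := (ig_int hψ hsupp A B h.ne')
  -- the second term as an integral over `x > 0`, `y < 0`
  have hk2 : kap ψ B (-A) = ∫ x in Set.Ioi (0 : ℝ), ∫ y in Set.Iic (0 : ℝ), ig ψ A B (x, y) := by
    have hi2 : Integrable (Function.uncurry (fun s t => ig ψ A B (t, -s)))
        (((volume : Measure ℝ).restrict (Set.Ioi 0)).prod ((volume : Measure ℝ).restrict (Set.Ioi 0))) := by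
      rw [Measure.prod_restrict]
      refine Integrable.integrableOn ?_
      have hc : Continuous (Function.uncurry (fun s t => ig ψ A B (t, -s))) := by
        have := ig_cont hψ A B
        exact this.comp (by fun_prop : Continuous fun z : ℝ × ℝ => (z.2, -z.1))
      refine hc.integrable_of_hasCompactSupport ?_
      have e : (Function.uncurry (fun s t => ig ψ A B (t, -s))) =
          ig ψ A B ∘ ((Homeomorph.prodComm ℝ ℝ).trans
            ((Homeomorph.refl ℝ).prodCongr (Homeomorph.neg ℝ))) := by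
        ext z
        rfl
      rw [e]
      exact (ig_supp hsupp A B h.ne').comp_homeomorph _
    have h1 : kap ψ B (-A) = ∫ s in Set.Ioi (0 : ℝ), ∫ t in Set.Ioi (0 : ℝ), ig ψ A B (t, -s) := by
      unfold kap
      refine integral_congr_ae (Eventually.of_forall (fun s => ?_))
      refine integral_congr_ae (Eventually.of_forall (fun t => ?_))
      simp only [ig, Prod.fst_neg, Prod.snd_neg]
      have a1 : s * B.1 - t * -A.1 = t * A.1 - -s * B.1 := by ring
      have a2 : s * B.2 - t * -A.2 = t * A.2 - -s * B.2 := by ring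
      have a3 : det2 B (-A) = det2 A B := by
        simp only [det2, Prod.fst_neg, Prod.snd_neg]; ring
      rw [a1, a2, a3]
    rw [h1, integral_integral_swap hi2]
    refine integral_congr_ae (Eventually.of_forall (fun x => ?_))
    have h2 := integral_comp_neg_Ioi (0 : ℝ) (fun y => ig ψ A B (x, y))
    rw [neg_zero] at h2
    exact h2
  have hk1 : kap ψ A B = ∫ x in Set.Ioi (0 : ℝ), ∫ y in Set.Ioi (0 : ℝ), ig ψ A B (x, y) := rfl
  have hx : ∀ x, Integrable (fun y => ig ψ A B (x, y)) := by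
    intro x
    have hc : Continuous (fun y => ig ψ A B (x, y)) :=
      (ig_cont hψ A B).comp (by fun_prop : Continuous fun y : ℝ => (x, y))
    refine hc.integrable_of_hasCompactSupport ?_
    exact (ig_supp hsupp A B h.ne').comp_isClosedEmbedding
      (Topology.IsClosedEmbedding.of_continuous_injective_isClosedMap (by fun_prop)
        (fun a b hab => (Prod.mk.inj hab).2) (isClosedMap_prodMk_left x))
  have hH : ∀ x, (∫ y in Set.Ioi (0 : ℝ), ig ψ A B (x, y)) + (∫ y in Set.Iic (0 : ℝ), ig ψ A B (x, y)) =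
      ∫ y, ig ψ A B (x, y) := by
    intro x
    rw [add_comm, ← Set.compl_Iic]
    exact integral_add_compl measurableSet_Iic (hx x)
  have i1 : Integrable (fun x => ∫ y in Set.Ioi (0 : ℝ), ig ψ A B (x, y))
      ((volume : Measure ℝ).restrict (Set.Ioi 0)) := by
    have : Integrable (ig ψ A B)
        (((volume : Measure ℝ).restrict (Set.Ioi 0)).prod ((volume : Measure ℝ).restrict (Set.Ioi 0))) := by
      rw [Measure.prod_restrict]
      exact hi.integrableOn
    exact this.integral_prod_left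
  have i2 : Integrable (fun x => ∫ y in Set.Iic (0 : ℝ), ig ψ A B (x, y))
      ((volume : Measure ℝ).restrict (Set.Ioi 0)) := by
    have : Integrable (ig ψ A B)
        (((volume : Measure ℝ).restrict (Set.Ioi 0)).prod ((volume : Measure ℝ).restrict (Set.Iic 0))) := by
      rw [Measure.prod_restrict]
      exact hi.integrableOn
    exact this.integral_prod_left
  rw [hk1, hk2, ← integral_add i1 i2]
  simp only [hH]
  -- the half line
  have hev : ∀ x, ∫ y, ig ψ A B (-x, y) = ∫ y, ig ψ A B (x, y) := by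
    intro x
    rw [← integral_neg_eq_self (fun y => ig ψ A B (-x, y))]
    refine integral_congr_ae (Eventually.of_forall (fun y => ?_))
    simp only [ig]
    have a1 : -x * A.1 - -y * B.1 = -(x * A.1 - y * B.1) := by ring
    have a2 : -x * A.2 - -y * B.2 = -(x * A.2 - y * B.2) := by ring
    rw [a1, a2, heven, heven]
  have hI : Integrable (fun x => ∫ y, ig ψ A B (x, y)) := hi.integral_prod_left
  have hneg : ∫ x in Set.Iic (0 : ℝ), (∫ y, ig ψ A B (x, y)) = ∫ x in Set.Ioi (0 : ℝ), (∫ y, ig ψ A B (x, y)) := by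
    have h2 := integral_comp_neg_Ioi (0 : ℝ) (fun x => ∫ y, ig ψ A B (x, y))
    rw [neg_zero] at h2
    rw [← h2]
    simp only [hev]
  have htot : (∫ x in Set.Iic (0 : ℝ), (∫ y, ig ψ A B (x, y))) +
      (∫ x in Set.Ioi (0 : ℝ), (∫ y, ig ψ A B (x, y))) = 1 := by
    rw [← Set.compl_Iic, integral_add_compl measurableSet_Iic hI, ← integral_prod _ hi]
    exact plane hψ hint A B h
  rw [hneg] at htot
  linarith

theorem exists_kernel : ∃ ψ ψ' : ℝ → ℝ, (∀ x, HasDerivAt ψ (ψ' x) x) ∧ Continuous ψ' ∧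
    (∀ x, 1 ≤ |x| → ψ x = 0) ∧ (∀ x, ψ (-x) = ψ x) ∧ ∫ x, ψ x = 1 := by
  let f : ContDiffBump (0 : ℝ) := ⟨1 / 2, 1, by norm_num, by norm_num⟩
  have hC : ContDiff ℝ 1 (f.normed volume) := f.contDiff_normed
  refine ⟨f.normed volume, deriv (f.normed volume), fun x => ?_, ?_, ?_, ?_, ?_⟩
  · exact ((hC.differentiable (by norm_num)) x).hasDerivAt
  · exact hC.continuous_deriv (by norm_num)
  · intro x hx
    have h1 : x ∉ Function.support (f.normed volume) := by
      rw [f.support_normed_eq, Metric.mem_ball, dist_zero_right, Real.norm_eq_abs]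
      exact not_lt.mpr hx
    exact Function.notMem_support.mp h1
  · intro x
    exact f.normed_neg x
  · exact f.integral_normed

end Pool.Agent.TH317.CC
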